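import Pool.Agent.P.MP_f1a348_lc.Gr.Lin

set_option autoImplicit false

open Module

namespace Pool.Agent.P.MP_f1a348_lc.Gr

variable {F : Type} [Field F] {ι : Type} [Fintype ι] [DecidableEq ι]
  {V W : Type} [AddCommGroup V] [Module F V] [AddCommGroup W] [Module F W]
  [FiniteDimensional F V] [FiniteDimensional F W] {μ : (ι → V) →ₗ[F] W}

/-- `X` carries many relations relative to the pebbled subspaces `P`, `U` -/
def Tight (μ : (ι → V) →ₗ[F] W) (P : Submodule F V) (U : Submodule F W) (X : Submodule F V) :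
    Prop :=
  ∀ Y, X ⊓ P ≤ Y → Y ≤ X →
    finrank F (kap μ U Y) + finrank F X ≤ finrank F (kap μ U X) + finrank F Y

omit [DecidableEq ι] [FiniteDimensional F W] in
lemma Tight.mono {P P' : Submodule F V} {U U' : Submodule F W} (hP : P ≤ P') (hU : U ≤ U')
    {X : Submodule F V} (h : Tight μ P U X) : Tight μ P' U' X := by
  intro Y h1 h2
  have a := h Y ((inf_le_inf_left X hP).trans h1) h2
  have b := kap_super (μ := μ) hU X Y
  rw [sup_eq_left.2 h2, inf_eq_right.2 h2] at b
  omega

omit [Fintype ι] [DecidableEq ι] [FiniteDimensional F V] [FiniteDimensional F W] in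
lemma tight_self (P : Submodule F V) (U : Submodule F W) : Tight μ P U P := by
  intro Y h1 h2
  rw [inf_idem] at h1
  rw [le_antisymm h1 h2]

omit [DecidableEq ι] [FiniteDimensional F W] in
lemma Tight.step {P : Submodule F V} {U : Submodule F W} {X : Submodule F V} (h : Tight μ P U X)
    (Y : Submodule F V) (hY : X ⊓ P ≤ Y) :
    finrank F (kap μ U Y) + finrank F (X ⊔ Y : Submodule F V) ≤
      finrank F (kap μ U (X ⊔ Y)) + finrank F Y := by
  have a := h (X ⊓ Y) (le_inf inf_le_left hY) inf_le_left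
  have b := kap_super (μ := μ) (le_refl U) X Y
  have c := Submodule.finrank_sup_add_finrank_inf_eq X Y
  omega

omit [DecidableEq ι] [FiniteDimensional F W] in
lemma Tight.sup {P : Submodule F V} {U : Submodule F W} {X X' : Submodule F V}
    (h : Tight μ P U X) (h' : Tight μ P U X') : Tight μ P U (X ⊔ X') := by
  intro Y h1 h2
  have a := h.step Y ((inf_le_inf_right P le_sup_left).trans h1)
  have b := h'.step (X ⊔ Y) (((inf_le_inf_right P le_sup_right).trans h1).trans le_sup_right)
  have e : X' ⊔ (X ⊔ Y) = X ⊔ X' :=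
    le_antisymm (sup_le le_sup_right (sup_le le_sup_left h2))
      (sup_le (le_sup_left.trans le_sup_right) le_sup_left)
  rw [e] at b
  omega

omit [DecidableEq ι] in
lemma Tight.small {D m : ℕ} (hE : Expands μ D) {P : Submodule F V} {U : Submodule F W}
    (hP : finrank F P ≤ m) (hU : finrank F U ≤ m) {X : Submodule F V} (h : Tight μ P U X)
    (hX : finrank F X ≤ D) : finrank F X ≤ 4 * m := by
  have a := h (X ⊓ P) le_rfl inf_le_left
  have b := kap_le (μ := μ) U X
  have c := hE X hX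
  have d : finrank F (X ⊓ P : Submodule F V) ≤ finrank F P := Submodule.finrank_mono inf_le_right
  omega

omit [DecidableEq ι] in
lemma exists_closure {D m : ℕ} (hE : Expands μ D) (hD : 8 * m ≤ D) (P : Submodule F V)
    (U : Submodule F W) (hP : finrank F P ≤ m) (hU : finrank F U ≤ m) :
    ∃ C, Tight μ P U C ∧ finrank F C ≤ D ∧ ∀ X, Tight μ P U X → finrank F X ≤ D → X ≤ C := by
  classical
  have hne : ∃ n, ∃ C, Tight μ P U C ∧ finrank F C ≤ D ∧ D - finrank F C = n :=
    ⟨_, P, tight_self P U, by omega, rfl⟩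
  obtain ⟨C, h1, h2, h3⟩ := Nat.find_spec hne
  refine ⟨C, h1, h2, fun X hX hXD => ?_⟩
  have a := h1.small hE hP hU h2
  have b := hX.small hE hP hU hXD
  have c := Submodule.finrank_sup_add_finrank_inf_eq C X
  have d := Nat.find_min' hne ⟨C ⊔ X, h1.sup hX, by omega, rfl⟩
  have : C = C ⊔ X := Submodule.eq_of_le_of_finrank_le le_sup_left (by omega)
  rw [this]
  exact le_sup_right

/-- the defect vanishes on the closure of the pebbles -/
def Fine (μ : (ι → V) →ₗ[F] W) (D : ℕ) (P : Submodule F V) (U : Submodule F W)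
    (Θ : ι → V →ₗ[F] Dual F V) : Prop :=
  ∀ X, Tight μ P U X → finrank F X ≤ D → ∀ i, ∀ v ∈ X, Θ i v = 0

omit [DecidableEq ι] [FiniteDimensional F W] in
lemma Fine.mono {D : ℕ} {P P' : Submodule F V} {U U' : Submodule F W} (hP : P ≤ P') (hU : U ≤ U')
    {Θ : ι → V →ₗ[F] Dual F V} (h : Fine μ D P' U' Θ) : Fine μ D P U Θ :=
  fun X hX => h X (hX.mono hP hU)

omit [DecidableEq ι] in
lemma fine_bot {D : ℕ} (hE : Expands μ D) (Θ : ι → V →ₗ[F] Dual F V) : Fine μ D ⊥ ⊥ Θ := by
  intro X hX hD i v hv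
  have := hX.small (m := 0) hE (by simp) (by simp) hD
  have h0 : X = ⊥ := Submodule.finrank_eq_zero.1 (by omega)
  rw [h0, Submodule.mem_bot] at hv
  rw [hv, map_zero]

theorem Fine.step {D m : ℕ} (hE : Expands μ D) (hD : 8 * m ≤ D) {P P' : Submodule F V}
    {U U' : Submodule F W} (hP : P ≤ P') (hU : U ≤ U') (hP' : finrank F P' ≤ m)
    (hU' : finrank F U' ≤ m) {Θ : ι → V →ₗ[F] Dual F V} (h : Fine μ D P U Θ) :
    ∃ (η : V →ₗ[F] Dual F W) (ζ : W →ₗ[F] Dual F V), (∀ v ∈ P, η v = 0) ∧ (∀ w ∈ U, ζ w = 0) ∧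
      Fine μ D P' U' (fun i => Θ i - cob μ η ζ i) := by
  classical
  have hPm : finrank F P ≤ m := (Submodule.finrank_mono hP).trans hP'
  have hUm : finrank F U ≤ m := (Submodule.finrank_mono hU).trans hU'
  obtain ⟨C, c1, c2, c3⟩ := exists_closure hE hD P U hPm hUm
  obtain ⟨C', d1, d2, d3⟩ := exists_closure hE hD P' U' hP' hU'
  have hPC : P ≤ C := c3 P (tight_self P U) (by omega)
  have hCC : C ≤ C' := d3 C (c1.mono hP hU) c2
  have hcl : ∀ X, C ≤ X → X ≤ C' →
      finrank F (kap μ U X) + finrank F C ≤ finrank F (kap μ U C) + finrank F X := by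
    have hne : ∃ n, ∃ X, C ≤ X ∧ X ≤ C' ∧
        finrank F X + (finrank F (ι → V) - finrank F (kap μ U X)) = n := ⟨_, C, le_rfl, hCC, rfl⟩
    obtain ⟨Z, z1, z2, z3⟩ := Nat.find_spec hne
    have hZ : ∀ X, C ≤ X → X ≤ C' →
        finrank F (kap μ U X) + finrank F Z ≤ finrank F (kap μ U Z) + finrank F X := by
      intro X x1 x2
      have a := Nat.find_min' hne ⟨X, x1, x2, rfl⟩
      have b := Submodule.finrank_le (kap μ U X)
      have c := Submodule.finrank_le (kap μ U Z)
      omega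
    have hT : Tight μ P U Z := by
      intro Y y1 y2
      have a := c1.step Y ((inf_le_inf_right P z1).trans y1)
      have b := hZ (C ⊔ Y) le_sup_left (sup_le hCC (y2.trans z2))
      omega
    have : Z = C := le_antisymm (c3 Z hT ((Submodule.finrank_mono z2).trans d2)) z1
    rw [this] at hZ
    exact hZ
  obtain ⟨η, ζ, e1, e2, e3⟩ := exists_cob hE hCC d2 hcl Θ (h C c1 c2)
  refine ⟨η, ζ, fun v hv => e1 v (hPC hv), e2, fun X hX hXD i v hv => ?_⟩
  rw [LinearMap.sub_apply, e3 i v (d3 X hX hXD hv), sub_self]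

end Pool.Agent.P.MP_f1a348_lc.Gr
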