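import Mathlib

set_option autoImplicit false

namespace Pool.Agent.P.MP_f1a348_lc.Gr

/-- The marked isomorphism type of the subgroup generated by a tuple of group elements: the set of
words that evaluate to the identity on the tuple. -/
def markedType {G : Type} [Group G] {k : ℕ} (v : Fin k → G) : Set (FreeGroup (Fin k)) :=
  {w | FreeGroup.lift v w = 1}

/-- The colours used in round `r` by the `k`-dimensional Weisfeiler-Leman algorithm for groups. -/
def GColour (k : ℕ) : ℕ → Type
  | 0 => Set (FreeGroup (Fin k))
  | r + 1 => GColour k r × Multiset (Fin k → GColour k r)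

/-- The colour of a `k`-tuple of group elements after `r` rounds (Version II). -/
def gwl (G : Type) [Group G] [Fintype G] (k : ℕ) : (r : ℕ) → (Fin k → G) → GColour k r
  | 0, v => markedType v
  | r + 1, v => (gwl G k r v, (Finset.univ : Finset G).val.map fun x =>
      fun i => gwl G k r (Function.update v i x))

/-- The `k`-dimensional Weisfeiler-Leman algorithm (Version II) distinguishes the groups. -/
def GWLDistinguishes (k : ℕ) (G H : Type) [Group G] [Fintype G] [Group H] [Fintype H] : Prop :=
  ∃ r : ℕ, (Finset.univ : Finset (Fin k → G)).val.map (gwl G k r) ≠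
    (Finset.univ : Finset (Fin k → H)).val.map (gwl H k r)

end Pool.Agent.P.MP_f1a348_lc.Gr
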