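import Pool.Agent.P.MP_f1a348_lc.Gr.Closure

set_option autoImplicit false

open Module

namespace Pool.Agent.P.MP_f1a348_lc.Gr

variable {F : Type} [Field F] [Fintype F]

lemma card_vanish {A W : Type} [AddCommGroup A] [Module F A] [AddCommGroup W] [Module F W]
    [FiniteDimensional F A] [FiniteDimensional F W] {i : ℕ} (t : Fin i → A)
    (ht : LinearIndependent F t) :
    Nat.card {μ : A →ₗ[F] W | ∀ l, μ (t l) = 0} * Fintype.card F ^ (i * finrank F W) =
      Nat.card (A →ₗ[F] W) := by
  let e : (A →ₗ[F] W) →ₗ[F] (Fin i → W) := LinearMap.pi fun l => LinearMap.applyₗ (t l)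
  have hs : LinearMap.range e = ⊤ := by
    rw [LinearMap.range_eq_top]
    intro y
    obtain ⟨g, hg⟩ := LinearMap.exists_extend ((Basis.span ht).constr F y)
    refine ⟨g, funext fun l => ?_⟩
    have := LinearMap.congr_fun hg (Basis.span ht l)
    rw [Basis.constr_basis, LinearMap.comp_apply, Submodule.subtype_apply,
      Basis.span_apply] at this
    exact this
  have h1 := LinearMap.finrank_range_add_finrank_ker e
  rw [hs, finrank_top, finrank_pi_fintype] at h1
  have h2 : Nat.card {μ : A →ₗ[F] W | ∀ l, μ (t l) = 0} = Nat.card (LinearMap.ker e) := by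
    congr 2
    ext μ
    simp [e, funext_iff]
  rw [h2, natCard_eq_pow_finrank (K := F), natCard_eq_pow_finrank (K := F) (V := A →ₗ[F] W), ← h1,
    Nat.card_eq_fintype_card, ← pow_add]
  simp [add_comm]

theorem exists_expands (r g w D : ℕ) (hg : D < g) (hw : 2 * g + r * D ≤ w) :
    ∃ μ : (Fin r → Fin g → F) →ₗ[F] (Fin w → F), Expands μ D := by
  classical
  let Ω := (Fin r → Fin g → F) →ₗ[F] (Fin w → F)
  have : Finite Ω := Module.finite_of_finite F
  let _ : Fintype Ω := Fintype.ofFinite Ω
  let q := Fintype.card F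
  have hq : 1 < q := Fintype.one_lt_card
  let T : (j : ℕ) → (Fin j → Fin g → F) × (Fin (j / 2 + 1) → Fin r → Fin j → F) →
      Fin (j / 2 + 1) → Fin r → Fin g → F := fun j d l i => ∑ m, d.2 l i m • d.1 m
  let Bad : (j : ℕ) → (Fin j → Fin g → F) × (Fin (j / 2 + 1) → Fin r → Fin j → F) → Finset Ω :=
    fun j d => Finset.univ.filter fun μ => LinearIndependent F (T j d) ∧ ∀ l, μ (T j d l) = 0
  have h1 : ∀ j d, (Bad j d).card * q ^ ((j / 2 + 1) * w) ≤ Fintype.card Ω := by
    intro j d
    by_cases h : LinearIndependent F (T j d)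
    · have := card_vanish (W := Fin w → F) (T j d) h
      rw [finrank_fin_fun, Nat.card_eq_fintype_card (α := Ω)] at this
      rw [← this]
      apply le_of_eq
      congr 1
      rw [Nat.card_eq_fintype_card, Fintype.card_subtype]
      congr 1
      ext μ
      simp [Bad, h]
    · have : Bad j d = ∅ := by simp [Bad, h]
      simp [this]
  have h2 : ∀ j ≤ D, (Finset.univ.biUnion (Bad j)).card * q ^ g ≤ Fintype.card Ω := by
    intro j hj
    have a := Finset.card_biUnion_le (s := Finset.univ) (t := Bad j)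
    have hc : Fintype.card ((Fin j → Fin g → F) × (Fin (j / 2 + 1) → Fin r → Fin j → F)) =
        q ^ (g * j + j * r * (j / 2 + 1)) := by
      rw [pow_add]
      simp only [Fintype.card_prod, Fintype.card_fun, Fintype.card_fin, ← pow_mul, q]
    have he : g * j + j * r * (j / 2 + 1) + g ≤ (j / 2 + 1) * w := by
      have b1 : j + 1 ≤ 2 * (j / 2 + 1) := by omega
      generalize j / 2 + 1 = i at b1 ⊢
      have b2 : g * (j + 1) ≤ g * (2 * i) := Nat.mul_le_mul_left _ b1
      have b3 : j * r * i ≤ D * r * i := by gcongr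
      have b4 : i * (2 * g + r * D) ≤ i * w := Nat.mul_le_mul_left _ hw
      nlinarith
    have hpos : 0 < q ^ ((j / 2 + 1) * w) := by positivity
    refine Nat.le_of_mul_le_mul_right ?_ hpos
    calc (Finset.univ.biUnion (Bad j)).card * q ^ g * q ^ ((j / 2 + 1) * w)
        ≤ (∑ d, (Bad j d).card) * q ^ g * q ^ ((j / 2 + 1) * w) := by gcongr
      _ = (∑ d, (Bad j d).card * q ^ ((j / 2 + 1) * w)) * q ^ g := by
          rw [← Finset.sum_mul]; ring
      _ ≤ (∑ _d : (Fin j → Fin g → F) × (Fin (j / 2 + 1) → Fin r → Fin j → F),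
            Fintype.card Ω) * q ^ g := by
          gcongr with d
          exact h1 j d
      _ = Fintype.card Ω * q ^ (g * j + j * r * (j / 2 + 1) + g) := by
          rw [Finset.sum_const, Finset.card_univ, hc, smul_eq_mul, pow_add]; ring
      _ ≤ Fintype.card Ω * q ^ ((j / 2 + 1) * w) := by
          gcongr
          exact hq.le
  have h3 : ((Finset.range (D + 1)).biUnion fun j => Finset.univ.biUnion (Bad j)).card <
      (Finset.univ : Finset Ω).card := by
    have a := Finset.card_biUnion_le (s := Finset.range (D + 1))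
      (t := fun j => Finset.univ.biUnion (Bad j))
    have hΩ : 0 < Fintype.card Ω := Fintype.card_pos
    have hlt : D + 1 < q ^ g := lt_of_le_of_lt hg (Nat.lt_pow_self hq)
    refine Nat.lt_of_mul_lt_mul_right (a := q ^ g) ?_
    calc _ ≤ (∑ j ∈ Finset.range (D + 1), (Finset.univ.biUnion (Bad j)).card) * q ^ g := by gcongr
      _ = ∑ j ∈ Finset.range (D + 1), (Finset.univ.biUnion (Bad j)).card * q ^ g :=
          Finset.sum_mul _ _ _
      _ ≤ ∑ _j ∈ Finset.range (D + 1), Fintype.card Ω :=
          Finset.sum_le_sum fun j hj => h2 j (by have := Finset.mem_range.1 hj; omega)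
      _ = Fintype.card Ω * (D + 1) := by simp [mul_comm]
      _ < Fintype.card Ω * q ^ g := by gcongr
  obtain ⟨μ, -, hμ⟩ := Finset.exists_mem_notMem_of_card_lt_card h3
  refine ⟨μ, fun X hX => ?_⟩
  by_contra hlt
  apply hμ
  set j := finrank F X with hj
  obtain ⟨t, ht⟩ := exists_linearIndependent_of_le_finrank (R := F) (M := kap μ ⊥ X)
    (n := j / 2 + 1) (by omega)
  let b := Module.finBasis F X
  have hT : T j (fun m => (b m : Fin g → F),
      fun l i m => b.repr ⟨(t l).1 i, (mem_kap.1 (t l).2).1 i⟩ m) = fun l => (t l).1 := by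
    funext l i
    have := congrArg Subtype.val (b.sum_repr ⟨(t l).1 i, (mem_kap.1 (t l).2).1 i⟩)
    rw [Submodule.coe_sum] at this
    exact this
  refine Finset.mem_biUnion.2 ⟨j, Finset.mem_range.2 (by omega), Finset.mem_biUnion.2
    ⟨(fun m => (b m : Fin g → F), fun l i m => b.repr ⟨(t l).1 i, (mem_kap.1 (t l).2).1 i⟩ m),
      Finset.mem_univ _, Finset.mem_filter.2 ⟨Finset.mem_univ _, ?_⟩⟩⟩
  rw [hT]
  exact ⟨ht.map' (Submodule.subtype _) (Submodule.ker_subtype _),
    fun l => (mem_kap.1 (t l).2).2⟩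

end Pool.Agent.P.MP_f1a348_lc.Gr
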