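import Pool.Agent.P.MP_f1a348_lc.Gr.Expander
import Pool.Agent.P.MP_f1a348_lc.Gr.Defs
import Pool.Agent.P.MP_f1a348_lc.Tw.WL

set_option autoImplicit false

open Module

namespace Pool.Agent.P.MP_f1a348_lc.Gr

open Tw

section Strat

variable {G H : Type} [Group G] [Group H]

/-- a winning strategy for Duplicator in the bijective pebble game on groups -/
structure GStrategy (G H : Type) [Group G] [Group H] (k : ℕ) (Good : Finset (G × H) → Prop) :
    Prop where
  empty : Good ∅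
  iso : ∀ R, Good R → ∃ T : Subgroup (G × H), (∀ p ∈ R, p ∈ T) ∧ ∀ q ∈ T, q.1 = 1 ↔ q.2 = 1
  ext : ∀ R, Good R → R.card ≤ k →
    ∃ f : G ≃ H, ∀ w R', (∀ p ∈ R', p = (w, f w) ∨ p ∈ R) → Good R'

variable {K : ℕ} {Good : Finset (G × H) → Prop}

lemma GStrategy.strategy (S : GStrategy G H K Good) : Strategy (⊥ : SimpleGraph G) ⊥ K Good := by
  refine ⟨S.empty, fun R hR p hp q hq => ⟨?_, by simp⟩, S.ext⟩
  obtain ⟨T, h1, h2⟩ := S.iso R hR
  simpa [mul_inv_eq_one] using h2 _ (T.mul_mem (h1 p hp) (T.inv_mem (h1 q hq)))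

lemma GStrategy.markedType_eq (S : GStrategy G H K Good) {m : ℕ} {u : Fin m → G} {v : Fin m → H}
    (h : Good (pairs u v)) : markedType u = markedType v := by
  obtain ⟨T, h1, h2⟩ := S.iso _ h
  ext w
  have h3 : FreeGroup.lift (fun i => (u i, v i)) w ∈ T :=
    FreeGroup.range_lift_le (s := T) (by
      rintro _ ⟨i, rfl⟩
      exact h1 _ (mem_pairs.2 ⟨i, rfl⟩)) ⟨w, rfl⟩
  have e1 : (MonoidHom.fst G H).comp (FreeGroup.lift fun i => (u i, v i)) = FreeGroup.lift u := by
    ext i; simp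
  have e2 : (MonoidHom.snd G H).comp (FreeGroup.lift fun i => (u i, v i)) = FreeGroup.lift v := by
    ext i; simp
  simp only [markedType, Set.mem_ofPred_eq]
  rw [← e1, ← e2]
  exact h2 _ h3

lemma GStrategy.gwl_eq [Fintype G] [Fintype H] (S : GStrategy G H K Good) {k : ℕ} (hk : k ≤ K) :
    ∀ (r : ℕ) (u : Fin k → G) (v : Fin k → H), Good (pairs u v) → gwl G k r u = gwl H k r v
  | 0, u, v, h => S.markedType_eq h
  | r + 1, u, v, h => by
    classical
    obtain ⟨f, hf⟩ := S.ext _ h ((card_pairs u v).trans hk)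
    refine Prod.ext (S.gwl_eq hk r u v h) ?_
    change Multiset.map _ _ = Multiset.map _ _
    rw [← Finset.univ_map_equiv_to_embedding f, Finset.map_val, Multiset.map_map]
    refine Multiset.map_congr rfl fun w _ => ?_
    funext i
    refine S.gwl_eq hk r _ _ (hf w _ (fun p hp => ?_))
    obtain ⟨j, rfl⟩ := mem_pairs.1 hp
    by_cases hj : j = i
    · subst hj; simp
    · simp only [Function.update_of_ne hj]
      exact Or.inr (mem_pairs.2 ⟨j, rfl⟩)

theorem GStrategy.not_distinguishes [Fintype G] [Fintype H] (S : GStrategy G H K Good) {k : ℕ}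
    (hk : k ≤ K) : ¬ GWLDistinguishes k G H := by
  rintro ⟨r, hr⟩
  obtain ⟨F, hF⟩ := S.strategy.exists_equiv k hk
  apply hr
  rw [← Finset.univ_map_equiv_to_embedding F, Finset.map_val, Multiset.map_map]
  exact Multiset.map_congr rfl fun u _ => S.gwl_eq hk r _ _ (hF u)

end Strat

section Heis

variable {F : Type} [Field F] {A X Y : Type} [AddCommGroup A] [Module F A] [AddCommGroup X]
  [Module F X] [AddCommGroup Y] [Module F Y]

/-- the Heisenberg group of a bilinear map -/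
@[ext] structure Heis (B : A →ₗ[F] X →ₗ[F] Y) where
  /-- first coordinate -/
  a : A
  /-- second coordinate -/
  x : X
  /-- central coordinate -/
  u : Y

variable {B : A →ₗ[F] X →ₗ[F] Y}

instance : Mul (Heis B) := ⟨fun g h => ⟨g.a + h.a, g.x + h.x, g.u + h.u + B g.a h.x⟩⟩
instance : One (Heis B) := ⟨⟨0, 0, 0⟩⟩
instance : Inv (Heis B) := ⟨fun g => ⟨-g.a, -g.x, -g.u + B g.a g.x⟩⟩

@[simp] lemma Heis.mul_a (g h : Heis B) : (g * h).a = g.a + h.a := rfl
@[simp] lemma Heis.mul_x (g h : Heis B) : (g * h).x = g.x + h.x := rfl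
@[simp] lemma Heis.mul_u (g h : Heis B) : (g * h).u = g.u + h.u + B g.a h.x := rfl
@[simp] lemma Heis.one_a : (1 : Heis B).a = 0 := rfl
@[simp] lemma Heis.one_x : (1 : Heis B).x = 0 := rfl
@[simp] lemma Heis.one_u : (1 : Heis B).u = 0 := rfl
@[simp] lemma Heis.inv_a (g : Heis B) : (g⁻¹).a = -g.a := rfl
@[simp] lemma Heis.inv_x (g : Heis B) : (g⁻¹).x = -g.x := rfl
@[simp] lemma Heis.inv_u (g : Heis B) : (g⁻¹).u = -g.u + B g.a g.x := rfl

instance : Group (Heis B) := Group.ofLeftAxioms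
  (fun g h k => by
    ext
    · simp [add_assoc]
    · simp [add_assoc]
    · simp only [Heis.mul_u, Heis.mul_a, Heis.mul_x, map_add, LinearMap.add_apply]; abel)
  (fun g => by ext <;> simp)
  (fun g => by ext <;> simp)

/-- coordinates -/
def Heis.equiv (B : A →ₗ[F] X →ₗ[F] Y) : Heis B ≃ A × X × Y :=
  ⟨fun g => (g.a, g.x, g.u), fun q => ⟨q.1, q.2.1, q.2.2⟩, fun _ => rfl, fun _ => rfl⟩

instance [Finite A] [Finite X] [Finite Y] : Finite (Heis B) := Finite.of_equiv _ (Heis.equiv B).symm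

lemma Heis.commutator_le : commutator (Heis B) ≤ Subgroup.center (Heis B) := by
  rw [commutator_eq_closure, Subgroup.closure_le]
  rintro _ ⟨g, h, rfl⟩
  rw [SetLike.mem_coe, Subgroup.mem_center_iff]
  intro k
  rw [commutatorElement_def]
  have h1 : (g * h * g⁻¹ * h⁻¹).a = 0 := by simp
  have h2 : (g * h * g⁻¹ * h⁻¹).x = 0 := by simp
  generalize g * h * g⁻¹ * h⁻¹ = c at h1 h2
  ext <;> simp [h1, h2, add_comm]

lemma Heis.pow_eq (g : Heis B) (n : ℕ) :
    g ^ n = ⟨n • g.a, n • g.x, n • g.u + n.choose 2 • B g.a g.x⟩ := by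
  induction n with
  | zero => ext <;> simp
  | succ n ih =>
    rw [pow_succ, ih]
    ext
    · simp [succ_nsmul]
    · simp [succ_nsmul]
    · simp only [Heis.mul_u, map_nsmul, LinearMap.smul_apply, succ_nsmul, Nat.choose_succ_succ',
        Nat.choose_one_right, add_nsmul]
      abel

lemma Heis.pow_char (p : ℕ) [Fact p.Prime] [CharP F p] (hp : p ≠ 2) (g : Heis B) : g ^ p = 1 := by
  have hp' : p.Prime := Fact.out
  have h2 : p ∣ p.choose 2 := hp'.dvd_choose_self two_ne_zero (by have := hp'.two_le; omega)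
  obtain ⟨m, hm⟩ := h2
  rw [Heis.pow_eq, hm]
  ext <;> simp [← Nat.cast_smul_eq_nsmul F]

end Heis

end Pool.Agent.P.MP_f1a348_lc.Gr
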