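import Pool.Agent.P.MP_f1a348_lc.Gr.Main

set_option autoImplicit false

namespace Pool.Agent.P.MP_f1a348_lc.Gr

open Tw

section Net

variable {P P' G H : Type}

/-- a 3-net given by three coordinate functions -/
structure IsNet (co : Fin 3 → P → G) : Prop where
  inj : ∀ i j, i ≠ j → ∀ p q, co i p = co i q → co j p = co j q → p = q
  surj : ∀ i j, i ≠ j → ∀ x y, ∃ p, co i p = x ∧ co j p = y

/-- the collinearity graph -/
def netGraph (co : Fin 3 → P → G) : SimpleGraph P where
  Adj p q := p ≠ q ∧ ∃ i, co i p = co i q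
  symm := ⟨fun _ _ h => ⟨h.1.symm, h.2.imp fun _ e => e.symm⟩⟩
  loopless := ⟨fun _ h => h.1 rfl⟩

variable {co : Fin 3 → P → G} {co' : Fin 3 → P' → H}

lemma IsNet.ncard_line (h : IsNet co) (i : Fin 3) (x : G) :
    {p | co i p = x}.ncard = Nat.card G := by
  have hne : i ≠ i + 1 := by revert i; decide
  rw [← Set.ncard_univ]
  refine Set.ncard_congr (fun p _ => co (i + 1) p) (fun _ _ => trivial)
    (fun p q hp hq e => h.inj _ _ hne p q (hp.trans hq.symm) e) fun y _ => ?_
  obtain ⟨p, h1, h2⟩ := h.surj _ _ hne x y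
  exact ⟨p, h1, h2⟩

lemma IsNet.card (h : IsNet co) : Nat.card P = Nat.card G ^ 2 := by
  rw [sq, ← Nat.card_prod]
  refine Nat.card_congr (Equiv.ofBijective (fun p => (co 0 p, co 1 p)) ⟨fun p q e => ?_, fun q => ?_⟩)
  · exact h.inj 0 1 (by decide) p q (congrArg Prod.fst e) (congrArg Prod.snd e)
  · obtain ⟨p, h1, h2⟩ := h.surj 0 1 (by decide) q.1 q.2
    exact ⟨p, Prod.ext h1 h2⟩

lemma exists_others (m : Fin 3) :
    ∃ i j : Fin 3, i ≠ j ∧ i ≠ m ∧ j ≠ m ∧ ∀ l, l = m ∨ l = i ∨ l = j := by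
  revert m; decide

theorem IsNet.isSRG [Fintype P] [Finite G] [DecidableRel (netGraph co).Adj] (h : IsNet co)
    {n : ℕ} (hn : Nat.card G = n) (h2 : 2 ≤ n) :
    (netGraph co).IsSRGWith (n ^ 2) (3 * (n - 1)) n 6 := by
  refine ⟨by rw [← hn, ← h.card, Nat.card_eq_fintype_card], fun p => ?_, fun p q hpq => ?_,
    fun p q hne hpq => ?_⟩
  · rw [← SimpleGraph.card_neighborSet_eq_degree, ← Nat.card_eq_fintype_card,
      Nat.card_coe_set_eq]
    have e : (netGraph co).neighborSet p = (({q | co 0 q = co 0 p} \ {p}) ∪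
        ({q | co 1 q = co 1 p} \ {p})) ∪ ({q | co 2 q = co 2 p} \ {p}) := by
      ext q
      simp only [SimpleGraph.mem_neighborSet, netGraph, Fin.exists_fin_succ, Set.mem_union,
        Set.mem_sdiff, Set.mem_ofPred_eq, Set.mem_singleton_iff, IsEmpty.exists_iff, or_false,
        ne_eq, eq_comm (a := q), eq_comm (b := co _ p)]
      tauto
    have d : ∀ i j, i ≠ j → Disjoint ({q | co i q = co i p} \ {p}) ({q | co j q = co j p} \ {p}) :=
      fun i j hij => Set.disjoint_left.2 fun q a b => a.2 (h.inj i j hij q p a.1 b.1)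
    have c : ∀ i, ({q | co i q = co i p} \ {p}).ncard = n - 1 := fun i => by
      rw [Set.ncard_sdiff_singleton_of_mem (by rfl), h.ncard_line, hn]
    rw [e, Set.ncard_union_eq (Set.disjoint_union_left.2 ⟨d 0 2 (by decide), d 1 2 (by decide)⟩),
      Set.ncard_union_eq (d 0 1 (by decide)), c, c, c]
    omega
  · rw [← Nat.card_eq_fintype_card, Nat.card_coe_set_eq]
    obtain ⟨hne, m, hm⟩ := hpq
    obtain ⟨i, j, hij, him, hjm, hall⟩ := exists_others m
    obtain ⟨r, r1, r2⟩ := h.surj i j hij (co i p) (co j q)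
    obtain ⟨s, s1, s2⟩ := h.surj j i hij.symm (co j p) (co i q)
    have hi : co i p ≠ co i q := fun e => hne (h.inj i m him p q e hm)
    have hj : co j p ≠ co j q := fun e => hne (h.inj j m hjm p q e hm)
    have hrp : r ≠ p := fun e => hj (by rw [← r2, e])
    have hrq : r ≠ q := fun e => hi (by rw [← r1, e])
    have hsp : s ≠ p := fun e => hi (by rw [← s2, e])
    have hsq : s ≠ q := fun e => hj (by rw [← s1, e])
    have e : (netGraph co).commonNeighbors p q =
        (({t | co m t = co m p} \ {p}) \ {q}) ∪ {r, s} := by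
      ext t
      simp only [SimpleGraph.mem_commonNeighbors, netGraph, Set.mem_union, Set.mem_sdiff,
        Set.mem_ofPred_eq, Set.mem_singleton_iff, Set.mem_insert_iff]
      constructor
      · rintro ⟨⟨a1, a, a2⟩, b1, b, b2⟩
        rcases hall a with rfl | ha
        · exact Or.inl ⟨⟨a2.symm, a1.symm⟩, b1.symm⟩
        rcases hall b with rfl | hb
        · exact Or.inl ⟨⟨(hm.trans b2).symm, a1.symm⟩, b1.symm⟩
        right
        rcases ha with rfl | rfl <;> rcases hb with rfl | rfl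
        · exact absurd (a2.trans b2.symm) hi
        · exact Or.inl (h.inj _ _ hij _ _ (r1.trans a2).symm (r2.trans b2).symm)
        · exact Or.inr (h.inj _ _ hij _ _ (s2.trans b2).symm (s1.trans a2).symm)
        · exact absurd (a2.trans b2.symm) hj
      · rintro (⟨⟨a1, a2⟩, a3⟩ | rfl | rfl)
        · exact ⟨⟨Ne.symm a2, m, a1.symm⟩, Ne.symm a3, m, (a1.trans hm).symm⟩
        · exact ⟨⟨hrp.symm, i, r1.symm⟩, hrq.symm, j, r2.symm⟩
        · exact ⟨⟨hsp.symm, j, s1.symm⟩, hsq.symm, i, s2.symm⟩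
    have hd : Disjoint (({t | co m t = co m p} \ {p}) \ {q}) {r, s} := by
      refine Set.disjoint_left.2 fun t a b => ?_
      rcases b with rfl | rfl
      · exact hrp (h.inj i m him _ _ r1 a.1.1)
      · exact hsp (h.inj j m hjm _ _ s1 a.1.1)
    rw [e, Set.ncard_union_eq hd, Set.ncard_pair (fun e => hi (by rw [← r1, e, s2])),
      Set.ncard_sdiff_singleton_of_mem 
        (show q ∈ {t | co m t = co m p} \ {p} from ⟨hm.symm, hne.symm⟩),
      Set.ncard_sdiff_singleton_of_mem (by rfl), h.ncard_line, hn]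
    omega
  · rw [← Nat.card_eq_fintype_card, Nat.card_coe_set_eq]
    have hc : ∀ i, co i p ≠ co i q := fun i e => hpq ⟨hne, i, e⟩
    choose m m1 m2 using fun ij : {ij : Fin 3 × Fin 3 // ij.1 ≠ ij.2} =>
      h.surj _ _ ij.2 (co ij.1.1 p) (co ij.1.2 q)
    have hp : ∀ ij, m ij ≠ p := fun ij e => hc _ (by rw [← m2 ij, e])
    have hq : ∀ ij, m ij ≠ q := fun ij e => hc _ (by rw [← m1 ij, e])
    have e : (netGraph co).commonNeighbors p q = Set.range m := by
      ext t
      simp only [SimpleGraph.mem_commonNeighbors, netGraph, Set.mem_range]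
      constructor
      · rintro ⟨⟨-, a, a2⟩, -, b, b2⟩
        have hab : a ≠ b := fun e => hc a (a2.trans (e ▸ b2.symm))
        exact ⟨⟨(a, b), hab⟩, h.inj a b hab _ _ ((m1 ⟨(a, b), hab⟩).trans a2)
          ((m2 ⟨(a, b), hab⟩).trans b2)⟩
      · rintro ⟨ij, rfl⟩
        exact ⟨⟨(hp ij).symm, _, (m1 ij).symm⟩, (hq ij).symm, _, (m2 ij).symm⟩
    have hinj : Function.Injective m := by
      intro a b e
      refine Subtype.ext (Prod.ext ?_ ?_)
      · by_contra hab
        exact hp a (h.inj _ _ hab _ _ (m1 a) (e ▸ m1 b))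
      · by_contra hab
        exact hq a (h.inj _ _ hab _ _ (m2 a) (e ▸ m2 b))
    rw [e, Set.ncard_range_of_injective hinj, Nat.card_eq_fintype_card]
    decide

lemma IsNet.on_line (h : IsNet co) {m : Fin 3} {p q r s : P} (hpq : p ≠ q) (hpr : p ≠ r)
    (hqr : q ≠ r) (h1 : co m p = co m q) (h2 : co m p = co m r) (a : ∃ i, co i s = co i p)
    (b : ∃ i, co i s = co i q) (c : ∃ i, co i s = co i r) : co m s = co m p := by
  obtain ⟨a, ha⟩ := a
  obtain ⟨b, hb⟩ := b
  obtain ⟨c, hc⟩ := c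
  by_contra hs
  have am : a ≠ m := fun e => hs (e ▸ ha)
  have bm : b ≠ m := fun e => hs ((e ▸ hb :).trans h1.symm)
  have cm : c ≠ m := fun e => hs ((e ▸ hc :).trans h2.symm)
  have ab : a ≠ b := fun e => hpq (h.inj a m am _ _ (ha.symm.trans (e ▸ hb)) h1)
  have ac : a ≠ c := fun e => hpr (h.inj a m am _ _ (ha.symm.trans (e ▸ hc)) h2)
  have bc : b ≠ c := fun e => hqr (h.inj b m bm _ _ (hb.symm.trans (e ▸ hc)) (h1.symm.trans h2))
  omega

theorem IsNet.exists_coord [Finite P] [Finite P'] (h : IsNet co) (h' : IsNet co')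
    (hc : Nat.card G = Nat.card H) (h5 : 5 ≤ Nat.card G) (ψ : netGraph co ≃g netGraph co') :
    ∃ (σ : Fin 3 → Fin 3) (α : Fin 3 → G → H), Function.Injective σ ∧
      (∀ i, Function.Injective (α i)) ∧ ∀ i p, co' (σ i) (ψ p) = α i (co i p) := by
  have share : ∀ i p q, co i p = co i q → ∃ j, co' j (ψ p) = co' j (ψ q) := by
    intro i p q e
    by_cases hpq : p = q
    · exact ⟨0, by rw [hpq]⟩
    · exact (ψ.map_adj_iff.2 ⟨hpq, i, e⟩).2
  have hne : ∀ i x, ∃ p, co i p = x := fun i x => by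
    have : {p | co i p = x}.ncard ≠ 0 := by rw [h.ncard_line]; omega
    exact Set.nonempty_of_ncard_ne_zero this
  have stepB : ∀ i x, ∃ j y, ∀ p, co i p = x → co' j (ψ p) = y := by
    intro i x
    obtain ⟨p, hp⟩ := hne i x
    choose! t ht using fun q => share i q p
    obtain ⟨q, hq, r, hr, hqr, e⟩ := Set.exists_ne_map_eq_of_ncard_lt_of_maps_to
      (s := {q | co i q = x} \ {p}) (t := (Set.univ : Set (Fin 3))) (f := t)
      (by
        rw [Set.ncard_sdiff_singleton_of_mem (show p ∈ {q | co i q = x} from hp), h.ncard_line,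
          Set.ncard_univ, Nat.card_fin]
        omega) (fun _ _ => trivial)
    refine ⟨t q, _, fun s hs => h'.on_line (p := ψ p) (q := ψ q) (r := ψ r)
      (fun e => hq.2 (ψ.injective e).symm) (fun e => hr.2 (ψ.injective e).symm)
      (fun e => hqr (ψ.injective e)) (ht q (hq.1.trans hp.symm)).symm
      (e ▸ (ht r (hr.1.trans hp.symm)).symm) (share i _ _ (hs.trans hp.symm))
      (share i _ _ (hs.trans hq.1.symm)) (share i _ _ (hs.trans hr.1.symm))⟩
  choose τ α hα using stepB
  have back : ∀ i x p, co' (τ i x) (ψ p) = α i x → co i p = x := by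
    intro i x p hp
    have : ψ '' {p | co i p = x} = {p | co' (τ i x) p = α i x} :=
      Set.eq_of_subset_of_ncard_le (by rintro _ ⟨q, hq, rfl⟩; exact hα i x q hq) (by
        rw [Set.ncard_image_of_injective _ ψ.injective, h.ncard_line, h'.ncard_line, hc])
    obtain ⟨q, hq, e⟩ := this.ge hp
    rw [← ψ.injective e]
    exact hq
  have hτ : ∀ i x x', τ i x = τ i x' := by
    intro i x x'
    by_contra e
    obtain ⟨r, r1, r2⟩ := h'.surj _ _ e (α i x) (α i x')
    obtain ⟨r, rfl⟩ := ψ.surjective r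
    exact e (by rw [← back i x r r1, back i x' r r2])
  have : Nontrivial G := by
    have : Finite G := Nat.finite_of_card_ne_zero (by omega)
    exact Finite.one_lt_card_iff_nontrivial.1 (by omega)
  obtain ⟨x₀, x₁, hx⟩ := exists_pair_ne G
  refine ⟨fun i => τ i x₀, α, fun i j e => ?_, fun i x x' e => ?_,
    fun i p => by simp only [hτ i x₀ (co i p)]; exact hα i _ p rfl⟩
  · by_contra hij
    obtain ⟨p, p1, p2⟩ := h.surj i j hij x₀ x₀
    obtain ⟨q, q1, q2⟩ := h.surj i j hij x₀ x₁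
    have e' : τ i x₀ = τ j x₀ := e
    have := back j x₀ q (by rw [← e', hα i x₀ q q1, ← hα i x₀ p p1, e', hα j x₀ p p2])
    exact hx (this.symm.trans q2)
  · obtain ⟨p, hp⟩ := hne i x
    rw [← hp]
    exact back i x' p (by rw [← hτ i x x', hα i x p hp, e])

end Net

section Group

variable {G H : Type} [Group G] [Group H]

/-- the three coordinates of a cell of the multiplication table -/
def tab (G : Type) [Group G] : Fin 3 → G × G → G := ![Prod.fst, Prod.snd, fun p => p.1 * p.2]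

lemma isNet_tab : IsNet (tab G) := by
  constructor
  · intro i j hij p q h1 h2
    fin_cases i <;> fin_cases j <;> simp_all [tab, Prod.ext_iff]
  · intro i j hij x y
    fin_cases i <;> fin_cases j <;> simp only [tab] <;> try exact absurd rfl hij
    · exact ⟨(x, y), rfl, rfl⟩
    · exact ⟨(x, x⁻¹ * y), rfl, by simp⟩
    · exact ⟨(y, x), rfl, rfl⟩
    · exact ⟨(y * x⁻¹, x), rfl, by simp⟩
    · exact ⟨(y, y⁻¹ * x), by simp, rfl⟩
    · exact ⟨(x * y⁻¹, y), by simp, rfl⟩

lemma hom_of_isotopy (a b d : G → H) (hd : Function.Injective d) (h : ∀ x y, d (x * y) = a x * b y) :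
    ∃ f : G →* H, Function.Injective f := by
  refine ⟨MonoidHom.mk' (fun x => d x * (d 1)⁻¹) fun x y => ?_, fun x y e => hd (by simpa using e)⟩
  have h1 := h x 1
  have h2 := h 1 y
  have h3 := h 1 1
  rw [mul_one] at h1 h3
  rw [one_mul] at h2
  rw [h, h1, h2, h3]
  group

lemma hom_of_antiisotopy (a b d : G → H) (hd : Function.Injective d)
    (h : ∀ x y, d (x * y) = b y * a x) : ∃ f : G →* H, Function.Injective f :=
  hom_of_isotopy (fun x => (a x)⁻¹) (fun x => (b x)⁻¹) (fun x => (d x)⁻¹)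
    (inv_injective.comp hd) fun x y => by rw [h, mul_inv_rev]

theorem mulEquiv_of_iso [Finite G] [Finite H] (hc : Nat.card G = Nat.card H)
    (h5 : 5 ≤ Nat.card G) (ψ : netGraph (tab G) ≃g netGraph (tab H)) : Nonempty (G ≃* H) := by
  obtain ⟨σ, α, h1, h2, h3⟩ := isNet_tab.exists_coord isNet_tab hc h5 ψ
  suffices ∃ f : G →* H, Function.Injective f by
    obtain ⟨f, hf⟩ := this
    exact ⟨MulEquiv.ofBijective f (hf.bijective_of_nat_card_le hc.ge)⟩
  have a : ∀ x y, tab H (σ 0) (ψ (x, y)) = α 0 x := fun x y => h3 0 (x, y)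
  have b : ∀ x y, tab H (σ 1) (ψ (x, y)) = α 1 y := fun x y => h3 1 (x, y)
  have c : ∀ x y, tab H (σ 2) (ψ (x, y)) = α 2 (x * y) := fun x y => h3 2 (x, y)
  have n1 : σ 0 ≠ σ 1 := h1.ne (by decide)
  have n2 : σ 0 ≠ σ 2 := h1.ne (by decide)
  have n3 : σ 1 ≠ σ 2 := h1.ne (by decide)
  generalize σ 0 = i at *
  generalize σ 1 = j at *
  generalize σ 2 = l at *
  fin_cases i <;> fin_cases j <;> fin_cases l <;> simp only [ne_eq, not_true] at n1 n2 n3
  · exact hom_of_isotopy (α 0) (α 1) _ (h2 2) fun x y => by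
      rw [← a x y, ← b x y, ← c x y]; rfl
  · exact hom_of_isotopy (fun x => (α 0 x)⁻¹) (α 1) _ (h2 2) fun x y => by
      rw [← a x y, ← b x y, ← c x y]; simp [tab]
  · exact hom_of_antiisotopy (α 0) (α 1) _ (h2 2) fun x y => by
      rw [← a x y, ← b x y, ← c x y]; rfl
  · exact hom_of_antiisotopy (fun x => (α 0 x)⁻¹) (α 1) _ (h2 2) fun x y => by
      rw [← a x y, ← b x y, ← c x y]; simp [tab]
  · exact hom_of_antiisotopy (α 0) (fun x => (α 1 x)⁻¹) _ (h2 2) fun x y => by
      rw [← a x y, ← b x y, ← c x y]; simp [tab]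
  · exact hom_of_isotopy (α 0) (fun x => (α 1 x)⁻¹) _ (h2 2) fun x y => by
      rw [← a x y, ← b x y, ← c x y]; simp [tab]

theorem GStrategy.latin {k : ℕ} {Good : Finset (G × H) → Prop}
    (S : GStrategy G H (2 * k + 1) Good) :
    ∃ Good', Strategy (netGraph (tab G)) (netGraph (tab H)) k Good' := by
  classical
  let I : Finset ((G × G) × (H × H)) → Finset (G × H) := fun R =>
    R.image (fun p => (p.1.1, p.2.1)) ∪ R.image (fun p => (p.1.2, p.2.2))
  have hI1 : ∀ {R p}, p ∈ R → (p.1.1, p.2.1) ∈ I R := fun hp =>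
    Finset.mem_union_left _ (Finset.mem_image_of_mem _ hp)
  have hI2 : ∀ {R p}, p ∈ R → (p.1.2, p.2.2) ∈ I R := fun hp =>
    Finset.mem_union_right _ (Finset.mem_image_of_mem _ hp)
  refine ⟨fun R => Good (I R), by simpa [I] using S.empty, fun R hR p hp q hq => ?_,
    fun R hR hk => ?_⟩
  · obtain ⟨T, h1, h2⟩ := S.iso _ hR
    have key : ∀ a ∈ T, ∀ b ∈ T, a.1 = b.1 ↔ a.2 = b.2 := fun a ha b hb => by
      simpa [mul_inv_eq_one] using h2 _ (T.mul_mem ha (T.inv_mem hb))
    have hm : ∀ p ∈ R, ∀ i, (tab G i p.1, tab H i p.2) ∈ T := by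
      intro p hp i
      fin_cases i
      · exact h1 _ (hI1 hp)
      · exact h1 _ (hI2 hp)
      · exact T.mul_mem (h1 _ (hI1 hp)) (h1 _ (hI2 hp))
    have e : ∀ i, tab G i p.1 = tab G i q.1 ↔ tab H i p.2 = tab H i q.2 := fun i =>
      key _ (hm p hp i) _ (hm q hq i)
    have e' : p.1 = q.1 ↔ p.2 = q.2 := by
      rw [Prod.ext_iff, Prod.ext_iff]
      exact and_congr (e 0) (e 1)
    exact ⟨e', and_congr (not_congr e') (exists_congr e)⟩
  · have hc : (I R).card ≤ 2 * k := (Finset.card_union_le _ _).trans (by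
      have a := Finset.card_image_le (s := R) (f := fun p => (p.1.1, p.2.1))
      have b := Finset.card_image_le (s := R) (f := fun p => (p.1.2, p.2.2))
      omega)
    obtain ⟨f, hf⟩ := S.ext _ hR (by omega)
    choose g hg using fun x => S.ext (insert (x, f x) (I R))
      (hf x _ fun p hp => Finset.mem_insert.1 hp) ((Finset.card_insert_le _ _).trans (by omega))
    refine ⟨Equiv.prodShear f g, fun w R' hR' => hg w.1 w.2 _ fun p hp => ?_⟩
    rcases Finset.mem_union.1 hp with h | h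
    · obtain ⟨q, hq, rfl⟩ := Finset.mem_image.1 h
      rcases hR' q hq with rfl | hq
      · exact Or.inr (Finset.mem_insert_self _ _)
      · exact Or.inr (Finset.mem_insert_of_mem (hI1 hq))
    · obtain ⟨q, hq, rfl⟩ := Finset.mem_image.1 h
      rcases hR' q hq with rfl | hq
      · exact Or.inl rfl
      · exact Or.inr (Finset.mem_insert_of_mem (hI2 hq))

end Group

end Pool.Agent.P.MP_f1a348_lc.Gr
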