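import Mathlib

set_option autoImplicit false

open Module

namespace Pool.Agent.P.MP_f1a348_lc.Gr

variable {F : Type} [Field F] {ι : Type} [Fintype ι] [DecidableEq ι]
  {V W : Type} [AddCommGroup V] [Module F V] [AddCommGroup W] [Module F W]
  [FiniteDimensional F V] [FiniteDimensional F W]

lemma rn {A B : Type} [AddCommGroup A] [Module F A] [AddCommGroup B] [Module F B]
    [FiniteDimensional F A] (g : A →ₗ[F] B) (S : Submodule F A) :
    finrank F (S.map g) + finrank F (S ⊓ LinearMap.ker g : Submodule F A) = finrank F S := by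
  have h := LinearMap.finrank_range_add_finrank_ker (g.domRestrict S)
  rw [LinearMap.range_domRestrict, LinearMap.ker_domRestrict] at h
  rw [← h, ← Submodule.finrank_map_subtype_eq S ((LinearMap.ker g).comap S.subtype),
    Submodule.map_comap_subtype]

lemma rn2 {A B : Type} [AddCommGroup A] [Module F A] [AddCommGroup B] [Module F B]
    [FiniteDimensional F A] [FiniteDimensional F B] (f : A →ₗ[F] B) (B₀ B₁ : Submodule F B)
    (h : B₀ ≤ B₁) (hf : ∀ a, f a ∈ B₁) :
    finrank F A + finrank F B₀ ≤ finrank F (B₀.comap f) + finrank F B₁ := by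
  have h1 := LinearMap.finrank_range_add_finrank_ker (B₀.mkQ ∘ₗ f)
  have h2 := rn B₀.mkQ B₁
  rw [Submodule.ker_mkQ, inf_eq_right.2 h] at h2
  rw [LinearMap.ker_comp, Submodule.ker_mkQ] at h1
  have h3 : finrank F (LinearMap.range (B₀.mkQ ∘ₗ f)) ≤ finrank F (B₁.map B₀.mkQ) := by
    refine Submodule.finrank_mono ?_
    rintro _ ⟨a, rfl⟩
    exact ⟨f a, hf a, rfl⟩
  omega

/-- relations with entries in `X` and value in `U` -/
def kap (μ : (ι → V) →ₗ[F] W) (U : Submodule F W) (X : Submodule F V) : Submodule F (ι → V) :=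
  Submodule.pi Set.univ (fun _ => X) ⊓ U.comap μ

variable {μ : (ι → V) →ₗ[F] W}

omit [Fintype ι] [DecidableEq ι] [FiniteDimensional F V] [FiniteDimensional F W] in
lemma mem_kap {U : Submodule F W} {X : Submodule F V} {x : ι → V} :
    x ∈ kap μ U X ↔ (∀ i, x i ∈ X) ∧ μ x ∈ U := by
  simp [kap, Submodule.mem_pi]

omit [Fintype ι] [DecidableEq ι] [FiniteDimensional F V] [FiniteDimensional F W] in
lemma kap_mono {U U' : Submodule F W} {X X' : Submodule F V} (h : U ≤ U') (h' : X ≤ X') :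
    kap μ U X ≤ kap μ U' X' := fun _ hx =>
  mem_kap.2 ⟨fun i => h' ((mem_kap.1 hx).1 i), h (mem_kap.1 hx).2⟩

omit [DecidableEq ι] [FiniteDimensional F W] in
lemma kap_super {U U' : Submodule F W} (h : U' ≤ U) (X Y : Submodule F V) :
    finrank F (kap μ U' X) + finrank F (kap μ U Y) ≤
      finrank F (kap μ U (X ⊔ Y)) + finrank F (kap μ U' (X ⊓ Y)) := by
  rw [← Submodule.finrank_sup_add_finrank_inf_eq]
  refine add_le_add (Submodule.finrank_mono (sup_le (kap_mono h le_sup_left)
    (kap_mono le_rfl le_sup_right))) (Submodule.finrank_mono fun x hx => ?_)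
  exact mem_kap.2 ⟨fun i => ⟨(mem_kap.1 hx.1).1 i, (mem_kap.1 hx.2).1 i⟩, (mem_kap.1 hx.1).2⟩

omit [DecidableEq ι] in
lemma kap_le (U : Submodule F W) (X : Submodule F V) :
    finrank F (kap μ U X) ≤ finrank F (kap μ ⊥ X) + finrank F U := by
  have h := rn μ (kap μ U X)
  have h1 : finrank F ((kap μ U X).map μ) ≤ finrank F U := by
    refine Submodule.finrank_mono ?_
    rintro _ ⟨x, hx, rfl⟩
    exact (mem_kap.1 hx).2
  have h2 : finrank F (kap μ U X ⊓ LinearMap.ker μ : Submodule F (ι → V)) ≤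
      finrank F (kap μ ⊥ X) :=
    Submodule.finrank_mono fun x hx => mem_kap.2 ⟨(mem_kap.1 hx.1).1, hx.2⟩
  omega

/-- expansion up to dimension `D` -/
def Expands (μ : (ι → V) →ₗ[F] W) (D : ℕ) : Prop :=
  ∀ X : Submodule F V, finrank F X ≤ D → 2 * finrank F (kap μ ⊥ X) ≤ finrank F X

omit [DecidableEq ι] [FiniteDimensional F W] in
lemma tensor_vanish {D : ℕ} (hE : Expands μ D) {U : Submodule F W} {C C' : Submodule F V}
    (hCC : C ≤ C') (hD : finrank F C' ≤ D)
    (hcl : ∀ X, C ≤ X → X ≤ C' →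
      finrank F (kap μ U X) + finrank F C ≤ finrank F (kap μ U C) + finrank F X)
    (τ t : Dual F V →ₗ[F] (ι → V)) (hτ : ∀ φ, τ φ ∈ kap μ U C')
    (ht : ∀ ξ ∈ C.dualAnnihilator, μ (t ξ) = 0) 
    (htr : ∀ (ξ φ : Dual F V) (i : ι), φ (t ξ i) = ξ (τ φ i))
    (φ : Dual F V) (i : ι) : τ φ i ∈ C := by
  let X : Submodule F V := C ⊔ ⨆ i, LinearMap.range ((LinearMap.proj i) ∘ₗ τ)
  let Φ : Submodule F V := ⨆ i, C.dualAnnihilator.map ((LinearMap.proj i) ∘ₗ t)
  have hX : ∀ φ i, τ φ i ∈ X := fun φ i =>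
    Submodule.mem_sup_right (Submodule.mem_iSup_of_mem i ⟨φ, rfl⟩)
  have hXC : X ≤ C' := sup_le hCC (iSup_le fun i => by
    rintro _ ⟨φ, rfl⟩
    exact (mem_kap.1 (hτ φ)).1 i)
  have a1 := rn t C.dualAnnihilator
  have a2 : finrank F (C.dualAnnihilator ⊓ LinearMap.ker t : Submodule F (Dual F V)) ≤
      finrank F X.dualAnnihilator := by
    refine Submodule.finrank_mono fun ξ hξ => ?_
    rw [Submodule.mem_dualAnnihilator]
    have : X ≤ LinearMap.ker ξ := sup_le
      (fun v hv => (Submodule.mem_dualAnnihilator _).1 hξ.1 v hv) (iSup_le fun i => by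
        rintro _ ⟨φ, rfl⟩
        have h0 : t ξ = 0 := hξ.2
        change ξ (τ φ i) = 0
        rw [← htr, h0, Pi.zero_apply, map_zero])
    exact fun v hv => this hv
  have a3 := Subspace.finrank_add_finrank_dualAnnihilator_eq C
  have a4 := Subspace.finrank_add_finrank_dualAnnihilator_eq X
  have a5 := Subspace.finrank_add_finrank_dualAnnihilator_eq Φ
  have b1 : finrank F (C.dualAnnihilator.map t) ≤ finrank F (kap μ ⊥ Φ) := by
    refine Submodule.finrank_mono ?_
    rintro _ ⟨ξ, hξ, rfl⟩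
    exact mem_kap.2 ⟨fun i => Submodule.mem_iSup_of_mem i ⟨ξ, hξ, rfl⟩, ht ξ hξ⟩
  have c1 := rn2 τ (kap μ U C) (kap μ U X) (kap_mono le_rfl le_sup_left)
    (fun φ => mem_kap.2 ⟨hX φ, (mem_kap.1 (hτ φ)).2⟩)
  have c2 : finrank F ((kap μ U C).comap τ) ≤ finrank F Φ.dualAnnihilator := by
    refine Submodule.finrank_mono fun φ hφ => ?_
    rw [Submodule.mem_dualAnnihilator]
    have : Φ ≤ LinearMap.ker φ := iSup_le fun i => by
      rintro _ ⟨ξ, hξ, rfl⟩
      change φ (t ξ i) = 0
      rw [htr]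
      exact (Submodule.mem_dualAnnihilator _).1 hξ _ ((mem_kap.1 hφ).1 i)
    exact fun v hv => this hv
  rw [Subspace.dual_finrank_eq] at c1
  have d1 := hcl X le_sup_left hXC
  have d2 : finrank F X ≤ finrank F C' := Submodule.finrank_mono hXC
  have d3 := hE Φ (by omega)
  have : C = X := Submodule.eq_of_le_of_finrank_le le_sup_left (by omega)
  rw [this]
  exact hX φ i

/-- the coboundary of a pair of linear maps -/
def cob (μ : (ι → V) →ₗ[F] W) (η : V →ₗ[F] Dual F W) (ζ : W →ₗ[F] Dual F V) (i : ι) :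
    V →ₗ[F] Dual F V :=
  η.compl₂ (μ ∘ₗ LinearMap.single F (fun _ => V) i) - ζ ∘ₗ μ ∘ₗ LinearMap.single F (fun _ => V) i

omit [Fintype ι] [FiniteDimensional F V] [FiniteDimensional F W] in
lemma cob_apply (η : V →ₗ[F] Dual F W) (ζ : W →ₗ[F] Dual F V) (i : ι) (v v' : V) :
    cob μ η ζ i v v' = η v (μ (Pi.single i v')) - ζ (μ (Pi.single i v)) v' := rfl

theorem exists_cob {D : ℕ} (hE : Expands μ D) {U : Submodule F W} {C C' : Submodule F V}
    (hCC : C ≤ C') (hD : finrank F C' ≤ D)
    (hcl : ∀ X, C ≤ X → X ≤ C' →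
      finrank F (kap μ U X) + finrank F C ≤ finrank F (kap μ U C) + finrank F X)
    (Θ : ι → V →ₗ[F] Dual F V) (hΘ : ∀ i, ∀ v ∈ C, Θ i v = 0) :
    ∃ (η : V →ₗ[F] Dual F W) (ζ : W →ₗ[F] Dual F V), (∀ v ∈ C, η v = 0) ∧ (∀ w ∈ U, ζ w = 0) ∧
      ∀ i, ∀ v ∈ C', Θ i v = cob μ η ζ i v := by
  let b := Module.finBasis F V
  let n := finrank F V
  let ev : (ι → V →ₗ[F] Dual F V) → Dual F (Fin n → ι → V) := fun B =>
    ∑ s, ∑ i, ((B i).flip (b s)) ∘ₗ (LinearMap.proj i) ∘ₗ (LinearMap.proj s)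
  have hev : ∀ B x, ev B x = ∑ s, ∑ i, B i (x s i) (b s) := fun B x => by
    simp only [ev, LinearMap.sum_apply]
    rfl
  let R : Submodule F (Dual F (Fin n → ι → V)) :=
    { carrier := {θ | ∃ (η : V →ₗ[F] Dual F W) (ζ : W →ₗ[F] Dual F V), (∀ v ∈ C, η v = 0) ∧
        (∀ w ∈ U, ζ w = 0) ∧ ∀ x, (∀ s i, x s i ∈ C') → θ x = ev (cob μ η ζ) x}
      add_mem' := by
        rintro θ θ' ⟨η, ζ, h1, h2, h3⟩ ⟨η', ζ', h1', h2', h3'⟩
        refine ⟨η + η', ζ + ζ', fun v hv => by simp [h1 v hv, h1' v hv],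
          fun v hv => by simp [h2 v hv, h2' v hv], fun x hx => ?_⟩
        rw [LinearMap.add_apply, h3 x hx, h3' x hx]
        simp only [hev, cob_apply, ← Finset.sum_add_distrib, LinearMap.add_apply]
        exact Finset.sum_congr rfl fun _ _ => Finset.sum_congr rfl fun _ _ => by ring
      zero_mem' := ⟨0, 0, by simp, by simp, fun x _ => by simp [hev, cob_apply]⟩
      smul_mem' := by
        rintro a θ ⟨η, ζ, h1, h2, h3⟩
        refine ⟨a • η, a • ζ, fun v hv => by simp [h1 v hv],
          fun v hv => by simp [h2 v hv], fun x hx => ?_⟩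
        rw [LinearMap.smul_apply, h3 x hx]
        simp only [hev, cob_apply, Finset.mul_sum, LinearMap.smul_apply, smul_eq_mul]
        exact Finset.sum_congr rfl fun _ _ => Finset.sum_congr rfl fun _ _ => by ring }
  have key : ev Θ ∈ R := by
    rw [← Subspace.dualCoannihilator_dualAnnihilator_eq (W := R), Submodule.mem_dualAnnihilator]
    intro x hx
    rw [Submodule.mem_dualCoannihilator] at hx
    have hx1 : ∀ s i, x s i ∈ C' := fun s i => by
      rw [← Subspace.forall_mem_dualAnnihilator_apply_eq_zero_iff]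
      intro ξ hξ
      refine hx (ξ ∘ₗ (LinearMap.proj i) ∘ₗ (LinearMap.proj s)) ⟨0, 0, by simp, by simp,
        fun y hy => ?_⟩
      simp only [hev, cob_apply, LinearMap.zero_apply, sub_zero, Finset.sum_const_zero]
      exact (Submodule.mem_dualAnnihilator _).1 hξ _ (hy s i)
    let τ : Dual F V →ₗ[F] (ι → V) := ∑ s, (Module.Dual.eval F V (b s)).smulRight (x s)
    let t : Dual F V →ₗ[F] (ι → V) :=
      LinearMap.pi fun i => ∑ s, (Module.Dual.eval F V (x s i)).smulRight (b s)
    have hτ : ∀ φ, τ φ = ∑ s, φ (b s) • x s := fun φ => by simp [τ, LinearMap.sum_apply]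
    have ht : ∀ ξ i, t ξ i = ∑ s, ξ (x s i) • b s := fun ξ i => by simp [t, LinearMap.sum_apply]
    have hμ : ∀ y : ι → V, μ y = ∑ i, μ (Pi.single i (y i)) := fun y => by
      rw [← map_sum, Finset.univ_sum_single]
    have hC := tensor_vanish hE hCC hD hcl τ t (fun φ => mem_kap.2 ⟨fun i => ?_, ?_⟩)
      (fun ξ hξ => ?_) (fun ξ φ i => ?_)
    · rw [hev]
      refine Finset.sum_eq_zero fun s _ => Finset.sum_eq_zero fun i _ => ?_
      have := hC (b.coord s) i
      rw [hτ, Finset.sum_eq_single s (fun s' _ h => by simp [h])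
        (by simp)] at this
      rw [hΘ i _ (by simpa using this), LinearMap.zero_apply]
    · rw [hτ, Finset.sum_apply]
      exact Submodule.sum_mem _ fun s _ => Submodule.smul_mem _ _ (hx1 s i)
    · rw [← Subspace.forall_mem_dualAnnihilator_apply_eq_zero_iff]
      intro ω hω
      have := hx _ ⟨0, ω.smulRight φ, by simp,
        fun w hw => by simp [(Submodule.mem_dualAnnihilator _).1 hω w hw], fun _ _ => rfl⟩
      simp only [hev, cob_apply, LinearMap.zero_apply, zero_sub, LinearMap.smulRight_apply,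
        LinearMap.smul_apply, smul_eq_mul, Finset.sum_neg_distrib, neg_eq_zero] at this
      rw [← this, hτ, map_sum, map_sum]
      refine Finset.sum_congr rfl fun s _ => ?_
      rw [map_smul, map_smul, hμ, map_sum, smul_eq_mul, Finset.mul_sum]
      exact Finset.sum_congr rfl fun i _ => mul_comm _ _
    · rw [← Module.forall_dual_apply_eq_zero_iff F]
      intro ω
      have := hx _ ⟨ξ.smulRight ω, 0,
        fun w hw => by simp [(Submodule.mem_dualAnnihilator _).1 hξ w hw], by simp, fun _ _ => rfl⟩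
      simp only [hev, cob_apply, LinearMap.zero_apply, sub_zero, LinearMap.smulRight_apply,
        LinearMap.smul_apply, smul_eq_mul] at this
      rw [← this, hμ, map_sum, Finset.sum_comm]
      refine Finset.sum_congr rfl fun i _ => ?_
      rw [ht, ← LinearMap.single_apply F (fun _ => V), map_sum, map_sum, map_sum]
      refine Finset.sum_congr rfl fun s _ => ?_
      rw [map_smul, map_smul, map_smul, smul_eq_mul, LinearMap.single_apply]
    · rw [ht, hτ, Finset.sum_apply, map_sum, map_sum]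
      refine Finset.sum_congr rfl fun s _ => ?_
      rw [map_smul, Pi.smul_apply, map_smul, smul_eq_mul, smul_eq_mul, mul_comm]
  obtain ⟨η, ζ, h1, h2, h3⟩ := key
  refine ⟨η, ζ, h1, h2, fun i v hv => b.ext fun s => ?_⟩
  have := h3 (Pi.single s (Pi.single i v)) (fun s' i' => by
    by_cases h : s' = s
    · subst h
      by_cases h' : i' = i
      · subst h'; simpa using hv
      · simp [h']
    · simp [h])
  have aux : ∀ B : ι → V →ₗ[F] Dual F V, ev B (Pi.single s (Pi.single i v)) = B i v (b s) := by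
    intro B
    rw [hev, Finset.sum_eq_single s (fun s' _ h => by simp [h]) (by simp),
      Finset.sum_eq_single i (fun i' _ h => by simp [h]) (by simp)]
    simp
  rwa [aux, aux] at this

end Pool.Agent.P.MP_f1a348_lc.Gr
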