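import Pool.Agent.P.MP_f1a348_lc.Gr.Heis

set_option autoImplicit false

open Module

namespace Pool.Agent.P.MP_f1a348_lc.Gr

noncomputable section

variable {F : Type} [Field F] {ι : Type} [Fintype ι] [DecidableEq ι]
  {V W : Type} [AddCommGroup V] [Module F V] [AddCommGroup W] [Module F W]

lemma exists_BQ (μ : (ι → V) →ₗ[F] W) : ∃ B : (ι → F) →ₗ[F] V →ₗ[F] W,
    ∀ a v, B a v = ∑ i, a i • μ (Pi.single i v) :=
  ⟨∑ i, (LinearMap.proj i : (ι → F) →ₗ[F] F).smulRight (μ ∘ₗ LinearMap.single F (fun _ => V) i),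
    fun a v => by simp [LinearMap.sum_apply]⟩

/-- the bilinear map of the quotient -/
def BQ (μ : (ι → V) →ₗ[F] W) : (ι → F) →ₗ[F] V →ₗ[F] W := Classical.choose (exists_BQ μ)

lemma BQ_apply (μ : (ι → V) →ₗ[F] W) (a : ι → F) (v : V) :
    BQ μ a v = ∑ i, a i • μ (Pi.single i v) := Classical.choose_spec (exists_BQ μ) a v

lemma exists_BL (μ : (ι → V) →ₗ[F] W) (c : ι → V →ₗ[F] Dual F V) :
    ∃ B : (ι → F) →ₗ[F] (V × Dual F W) →ₗ[F] (W × Dual F V), ∀ a x,
      (B a x).1 = BQ μ a x.1 ∧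
        ∀ v', (B a x).2 v' = ∑ i, a i * (x.2 (μ (Pi.single i v')) + c i x.1 v') :=
  ⟨∑ i, (LinearMap.proj i : (ι → F) →ₗ[F] F).smulRight
    (LinearMap.prod (μ ∘ₗ LinearMap.single F (fun _ => V) i ∘ₗ LinearMap.fst F _ _)
      ((μ ∘ₗ LinearMap.single F (fun _ => V) i).dualMap ∘ₗ LinearMap.snd F _ _ +
        c i ∘ₗ LinearMap.fst F _ _)), fun a x =>
    ⟨by simp [BQ_apply, LinearMap.sum_apply, Prod.fst_sum],
      fun v' => by simp [LinearMap.sum_apply, Prod.snd_sum, mul_add]⟩⟩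

/-- the bilinear map of the extension with cocycle `c` -/
def BL (μ : (ι → V) →ₗ[F] W) (c : ι → V →ₗ[F] Dual F V) :
    (ι → F) →ₗ[F] (V × Dual F W) →ₗ[F] (W × Dual F V) := Classical.choose (exists_BL μ c)

variable {μ : (ι → V) →ₗ[F] W} {c : ι → V →ₗ[F] Dual F V}

lemma BL_fst (a : ι → F) (x : V × Dual F W) : (BL μ c a x).1 = BQ μ a x.1 :=
  (Classical.choose_spec (exists_BL μ c) a x).1

lemma BL_snd (a : ι → F) (x : V × Dual F W) (v' : V) :
    (BL μ c a x).2 v' = ∑ i, a i * (x.2 (μ (Pi.single i v')) + c i x.1 v') :=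
  (Classical.choose_spec (exists_BL μ c) a x).2 v'

/-- Duplicator's linear bijections -/
def phi (μ : (ι → V) →ₗ[F] W) (c : ι → V →ₗ[F] Dual F V) (Y : V →ₗ[F] Dual F W)
    (Z : W →ₗ[F] Dual F V) (g : Heis (BL μ 0)) : Heis (BL μ c) :=
  ⟨g.a, (g.x.1, g.x.2 + Y g.x.1), (g.u.1, g.u.2 + Z g.u.1)⟩

lemma phi_mul (Y : V →ₗ[F] Dual F W) (Z : W →ₗ[F] Dual F V) (g h : Heis (BL μ 0))
    (hh : ∀ i, (c i + cob μ Y Z i) h.x.1 = 0) :
    phi μ c Y Z (g * h) = phi μ c Y Z g * phi μ c Y Z h := by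
  refine Heis.ext rfl (Prod.ext rfl ?_) (Prod.ext ?_ (LinearMap.ext fun v' => ?_))
  · simp only [phi, Heis.mul_x, Prod.snd_add, Prod.fst_add, map_add]; abel
  · simp [phi, BL_fst]
  · have : Z (BQ μ g.a h.x.1) v' = ∑ i, g.a i * (Y h.x.1 (μ (Pi.single i v')) + c i h.x.1 v') := by
      rw [BQ_apply, map_sum, LinearMap.sum_apply]
      refine Finset.sum_congr rfl fun i _ => ?_
      have := LinearMap.congr_fun (hh i) v'
      simp only [LinearMap.add_apply, cob_apply, LinearMap.zero_apply] at this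
      rw [map_smul, LinearMap.smul_apply, smul_eq_mul]
      congr 1
      linear_combination -this
    simp only [phi, Heis.mul_u, Prod.snd_add, Prod.fst_add, map_add, LinearMap.add_apply, BL_fst,
      BL_snd, this, Pi.zero_apply, LinearMap.zero_apply, add_zero, mul_add,
      Finset.sum_add_distrib]
    ring

lemma phi_one (Y : V →ₗ[F] Dual F W) (Z : W →ₗ[F] Dual F V) : phi μ c Y Z 1 = 1 := by
  refine Heis.ext rfl (Prod.ext rfl ?_) (Prod.ext rfl ?_) <;> simp [phi]

/-- fibrewise translation -/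
def phiEquiv (μ : (ι → V) →ₗ[F] W) (c : ι → V →ₗ[F] Dual F V)
    (Y : V → W → V →ₗ[F] Dual F W) (Z : V → W → W →ₗ[F] Dual F V) :
    Heis (BL μ 0) ≃ Heis (BL μ c) where
  toFun g := phi μ c (Y g.x.1 g.u.1) (Z g.x.1 g.u.1) g
  invFun g := ⟨g.a, (g.x.1, g.x.2 - Y g.x.1 g.u.1 g.x.1), (g.u.1, g.u.2 - Z g.x.1 g.u.1 g.u.1)⟩
  left_inv g := by
    refine Heis.ext rfl (Prod.ext rfl ?_) (Prod.ext rfl ?_) <;> simp [phi]
  right_inv g := by
    refine Heis.ext rfl (Prod.ext rfl ?_) (Prod.ext rfl ?_) <;> simp [phi]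

lemma finrank_span_le {M α : Type} [AddCommGroup M] [Module F M] (R : Finset α) (f : α → M)
    (x : M) : finrank F (Submodule.span F (insert x (f '' (R : Set α)))) ≤ R.card + 1 := by
  classical
  have := finrank_span_finset_le_card (R := F) (insert x (R.image f))
  rw [Finset.coe_insert, Finset.coe_image] at this
  exact this.trans ((Finset.card_insert_le _ _).trans (Nat.succ_le_succ Finset.card_image_le))

theorem exists_gstrategy [FiniteDimensional F V] [FiniteDimensional F W] {D K : ℕ}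
    (hE : Expands μ D) (hD : 8 * (K + 1) ≤ D) (c : ι → V →ₗ[F] Dual F V) :
    ∃ Good, GStrategy (Heis (BL μ 0)) (Heis (BL μ c)) K Good := by
  let P : Finset (Heis (BL μ 0) × Heis (BL μ c)) → Submodule F V := fun R =>
    Submodule.span F ((fun p => p.1.x.1) '' (R : Set (Heis (BL μ 0) × Heis (BL μ c))))
  let U : Finset (Heis (BL μ 0) × Heis (BL μ c)) → Submodule F W := fun R =>
    Submodule.span F ((fun p => p.1.u.1) '' (R : Set (Heis (BL μ 0) × Heis (BL μ c))))
  refine ⟨fun R => ∃ Y Z, (∀ p ∈ R, phi μ c Y Z p.1 = p.2) ∧ finrank F (P R) ≤ D ∧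
    Fine μ D (P R) (U R) (fun i => c i + cob μ Y Z i), ?_, ?_, ?_⟩
  · have e1 : P ∅ = ⊥ := by simp [P]
    have e2 : U ∅ = ⊥ := by simp [U]
    rw [e1, e2]
    exact ⟨0, 0, by simp, by simp, fine_bot hE _⟩
  · rintro R ⟨Y, Z, h1, h2, h3⟩
    have h4 := h3 _ (tight_self _ _) h2
    refine ⟨{ carrier := {q | q.1.x.1 ∈ P R ∧ phi μ c Y Z q.1 = q.2}
              mul_mem' := ?_, one_mem' := ⟨(P R).zero_mem, phi_one Y Z⟩, inv_mem' := ?_ },
      fun p hp => ⟨Submodule.subset_span ⟨p, hp, rfl⟩, h1 p hp⟩, ?_⟩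
    · rintro p q ⟨a1, a2⟩ ⟨b1, b2⟩
      refine ⟨(P R).add_mem a1 b1, ?_⟩
      rw [Prod.fst_mul, Prod.snd_mul, phi_mul Y Z _ _ fun i => h4 i _ b1, a2, b2]
    · rintro p ⟨a1, a2⟩
      refine ⟨(P R).neg_mem a1, ?_⟩
      rw [Prod.fst_inv, Prod.snd_inv, ← a2, eq_inv_iff_mul_eq_one,
        ← phi_mul Y Z _ _ fun i => h4 i _ a1, inv_mul_cancel, phi_one]
    · rintro q ⟨-, a2⟩
      rw [← a2, ← phi_one (c := c) Y Z]
      exact (phiEquiv μ c (fun _ _ => Y) (fun _ _ => Z)).injective.eq_iff.symm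
  · rintro R ⟨Y, Z, h1, -, h3⟩ hK
    let P' : V → Submodule F V := fun v => Submodule.span F (insert v
      ((fun p => p.1.x.1) '' (R : Set (Heis (BL μ 0) × Heis (BL μ c)))))
    let U' : W → Submodule F W := fun w => Submodule.span F (insert w
      ((fun p => p.1.u.1) '' (R : Set (Heis (BL μ 0) × Heis (BL μ c)))))
    have hP' : ∀ v, finrank F (P' v) ≤ K + 1 := fun v =>
      (finrank_span_le R _ v).trans (Nat.succ_le_succ hK)
    have hU' : ∀ v, finrank F (U' v) ≤ K + 1 := fun v =>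
      (finrank_span_le R _ v).trans (Nat.succ_le_succ hK)
    choose η ζ e1 e2 e3 using fun v w => h3.step hE hD (P' := P' v) (U' := U' w)
      (Submodule.span_mono (Set.subset_insert _ _)) (Submodule.span_mono (Set.subset_insert _ _))
      (hP' v) (hU' w)
    refine ⟨phiEquiv μ c (fun v w => Y - η v w) (fun v w => Z - ζ v w), fun g R' hR' => ?_⟩
    have hP : P R' ≤ P' g.x.1 := Submodule.span_mono (by
      rintro _ ⟨p, hp, rfl⟩
      rcases hR' p hp with rfl | hp
      · exact Set.mem_insert _ _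
      · exact Set.mem_insert_of_mem _ ⟨p, hp, rfl⟩)
    have hU : U R' ≤ U' g.u.1 := Submodule.span_mono (by
      rintro _ ⟨p, hp, rfl⟩
      rcases hR' p hp with rfl | hp
      · exact Set.mem_insert _ _
      · exact Set.mem_insert_of_mem _ ⟨p, hp, rfl⟩)
    refine ⟨Y - η g.x.1 g.u.1, Z - ζ g.x.1 g.u.1, fun p hp => ?_,
      (Submodule.finrank_mono hP).trans ((hP' _).trans (by omega)), ?_⟩
    · rcases hR' p hp with rfl | hp
      · rfl
      · rw [← h1 p hp]
        simp only [phi, LinearMap.sub_apply,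
          e1 _ _ p.1.x.1 (Submodule.subset_span ⟨p, hp, rfl⟩),
          e2 _ _ p.1.u.1 (Submodule.subset_span ⟨p, hp, rfl⟩), sub_zero]
    · convert (e3 g.x.1 g.u.1).mono hP hU using 2 with i
      ext v v'
      simp only [LinearMap.add_apply, LinearMap.sub_apply, cob_apply]
      ring

/-- projection to the common quotient -/
def prj (μ : (ι → V) →ₗ[F] W) (c : ι → V →ₗ[F] Dual F V) : Heis (BL μ c) →* Heis (BQ μ) where
  toFun g := ⟨g.a, g.x.1, g.u.1⟩
  map_one' := rfl
  map_mul' g h := by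
    refine Heis.ext rfl rfl ?_
    simp [BL_fst]

/-- difference of two lifts of the same homomorphism -/
def diffHom {Q : Type} [Group Q] (f f' : Q →* Heis (BL μ c))
    (h : (prj μ c).comp f = (prj μ c).comp f') : Q →* Heis (BL μ 0) :=
  MonoidHom.mk' (fun q => ⟨(f q).a, ((f q).x.1, (f q).x.2 - (f' q).x.2),
    ((f q).u.1, (f q).u.2 - (f' q).u.2)⟩) (by
      intro q q'
      have ha : (f q).a = (f' q).a := congrArg (fun g : Heis (BQ μ) => g.a) (DFunLike.congr_fun h q)
      have hx : (f q').x.1 = (f' q').x.1 := 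
        congrArg (fun g : Heis (BQ μ) => g.x) (DFunLike.congr_fun h q')
      refine Heis.ext ?_ (Prod.ext ?_ ?_) (Prod.ext ?_ (LinearMap.ext fun v' => ?_))
      · simp
      · simp
      · simp only [map_mul, Heis.mul_x, Prod.snd_add]; abel
      · simp [BL_fst]
      · simp only [map_mul, Heis.mul_u, Prod.snd_add, LinearMap.sub_apply, LinearMap.add_apply,
          BL_snd, ← ha, ← hx, Pi.zero_apply, LinearMap.zero_apply, add_zero, mul_add, mul_sub,
          Finset.sum_add_distrib, Finset.sum_sub_distrib]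
        ring)

theorem exists_section [Finite F] [Finite V] [Finite W] [FiniteDimensional F V]
    [FiniteDimensional F W] (e : Heis (BL μ 0) ≃* Heis (BL μ c)) :
    ∃ f : Heis (BQ μ) →* Heis (BL μ c), (prj μ c).comp f = MonoidHom.id _ := by
  classical
  have : Finite (Dual F V) := Module.finite_of_finite F
  have : Finite (Dual F W) := Module.finite_of_finite F
  have : Finite (Heis (BQ μ) →* Heis (BL μ c)) := DFunLike.finite _
  have : Finite (Heis (BQ μ) →* Heis (BL μ 0)) := DFunLike.finite _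
  let π : (Heis (BQ μ) →* Heis (BL μ c)) → (Heis (BQ μ) →* Heis (BQ μ)) := (prj μ c).comp
  let base : (Heis (BQ μ) →* Heis (BL μ c)) → (Heis (BQ μ) →* Heis (BL μ c)) := fun f =>
    Function.invFun π (π f)
  have hb : ∀ f, π f = π (base f) := fun f => (Function.invFun_eq ⟨f, rfl⟩).symm
  let j : (Heis (BQ μ) →* Heis (BL μ c)) → (Heis (BQ μ) →* Heis (BL μ 0)) := fun f =>
    diffHom f (base f) (hb f)
  have hj : ∀ f, (prj μ 0).comp (j f) = π f := fun f => rfl
  have hinj : Function.Injective j := by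
    intro f f' h
    have h1 : π f = π f' := by rw [← hj, ← hj, h]
    have h2 : base f = base f' := by simp only [base, h1]
    refine MonoidHom.ext fun q => ?_
    have h3 := DFunLike.congr_fun h q
    have h4 := congrArg (fun g => g.x.2) h3
    have h5 := congrArg (fun g => g.u.2) h3
    simp only [j, diffHom, MonoidHom.mk'_apply, h2, sub_left_inj] at h4 h5
    have h6 := congrArg (fun g => g.a) h3
    have h7 := congrArg (fun g => g.x.1) h3
    have h8 := congrArg (fun g => g.u.1) h3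
    exact Heis.ext h6 (Prod.ext h7 h4) (Prod.ext h8 h5)
  have hsurj : Function.Surjective j :=
    (hinj.bijective_of_nat_card_le (Nat.card_le_card_of_injective
      (fun f => e.toMonoidHom.comp f) fun f f' h => MonoidHom.ext fun q =>
        e.injective (DFunLike.congr_fun h q))).2
  let s : Heis (BQ μ) →* Heis (BL μ 0) := MonoidHom.mk' (fun q => ⟨q.a, (q.x, 0), (q.u, 0)⟩) (by
    intro q q'
    refine Heis.ext rfl (Prod.ext rfl ?_) (Prod.ext ?_ (LinearMap.ext fun v' => ?_))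
    · simp
    · simp [BL_fst]
    · simp [BL_snd])
  obtain ⟨f, hf⟩ := hsurj s
  refine ⟨f, ?_⟩
  change π f = _
  rw [← hj, hf]
  rfl

end

section

variable {p : ℕ} [Fact p.Prime] {ι : Type} [Fintype ι] [DecidableEq ι]
  {V W : Type} [AddCommGroup V] [Module (ZMod p) V] [AddCommGroup W] [Module (ZMod p) W]
  {μ : (ι → V) →ₗ[ZMod p] W} {c : ι → V →ₗ[ZMod p] Dual (ZMod p) V}

theorem split_of_section (f : Heis (BQ μ) →* Heis (BL μ c))
    (hf : (prj μ c).comp f = MonoidHom.id _) : ∃ Y Z, ∀ i, c i + cob μ Y Z i = 0 := by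
  have ha : ∀ q, (f q).a = q.a := fun q => congrArg Heis.a (DFunLike.congr_fun hf q)
  have hx : ∀ q, (f q).x.1 = q.x := fun q => congrArg Heis.x (DFunLike.congr_fun hf q)
  let Y : V →+ Dual (ZMod p) W := AddMonoidHom.mk' (fun v => (f ⟨0, v, 0⟩).x.2) (by
    intro v v'
    have : (⟨0, v + v', 0⟩ : Heis (BQ μ)) = ⟨0, v, 0⟩ * ⟨0, v', 0⟩ := by ext <;> simp
    simp only [this, map_mul, Heis.mul_x, Prod.snd_add])
  let Z : W →+ Dual (ZMod p) V := AddMonoidHom.mk' (fun w => (f ⟨0, 0, w⟩).u.2) (by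
    intro w w'
    have : (⟨0, 0, w + w'⟩ : Heis (BQ μ)) = ⟨0, 0, w⟩ * ⟨0, 0, w'⟩ := by ext <;> simp
    simp [this, ha])
  refine ⟨Y.toZModLinearMap p, Z.toZModLinearMap p, fun i => ?_⟩
  ext v v'
  have h1 : (⟨Pi.single i 1, 0, 0⟩ : Heis (BQ μ)) * ⟨0, v, 0⟩ =
      ⟨0, 0, μ (Pi.single i v)⟩ * ⟨0, v, 0⟩ * ⟨Pi.single i 1, 0, 0⟩ := by
    refine Heis.ext (by simp) (by simp) ?_
    simp [BQ_apply, Pi.single_apply]
  have h2 := congrArg (fun g => (f g).u.2 v') h1
  simp only [map_mul, Heis.mul_u, Heis.mul_a, Prod.snd_add, LinearMap.add_apply, BL_snd, ha, hx,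
    Pi.single_apply, ite_mul, one_mul, zero_mul, Finset.sum_ite_eq', Finset.mem_univ, if_true,
    Pi.zero_apply, Finset.sum_const_zero, add_zero] at h2
  simp only [LinearMap.add_apply, cob_apply, LinearMap.zero_apply]
  change c i v v' + ((f ⟨0, v, 0⟩).x.2 (μ (Pi.single i v')) -
    (f ⟨0, 0, μ (Pi.single i v)⟩).u.2 v') = 0
  linear_combination h2

end

theorem exists_nonsplit {F : Type} [Field F] {r g w : ℕ} (hg : 0 < g) (h : 2 * w < r * g)
    (μ : (Fin r → Fin g → F) →ₗ[F] (Fin w → F)) :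
    ∃ c : Fin r → (Fin g → F) →ₗ[F] Dual F (Fin g → F), ¬ ∃ Y Z, ∀ i, c i + cob μ Y Z i = 0 := by
  by_contra hc
  push Not at hc
  let L : (((Fin g → F) →ₗ[F] Dual F (Fin w → F)) × ((Fin w → F) →ₗ[F] Dual F (Fin g → F))) →ₗ[F]
      (Fin r → (Fin g → F) →ₗ[F] Dual F (Fin g → F)) :=
    { toFun := fun q i => cob μ q.1 q.2 i
      map_add' := fun q q' => by
        ext i : 1
        refine LinearMap.ext fun v => LinearMap.ext fun v' => ?_
        simp only [cob_apply, Prod.fst_add, Prod.snd_add, LinearMap.add_apply, Pi.add_apply]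
        ring
      map_smul' := fun a q => by
        ext i : 1
        refine LinearMap.ext fun v => LinearMap.ext fun v' => ?_
        simp only [cob_apply, Prod.smul_fst, Prod.smul_snd, LinearMap.smul_apply, Pi.smul_apply,
          smul_eq_mul, RingHom.id_apply]
        ring }
  have hs : Function.Surjective L := fun c => by
    obtain ⟨Y, Z, h⟩ := hc (-c)
    exact ⟨(Y, Z), funext fun i => (neg_add_eq_zero.1 (h i)).symm⟩
  have := LinearMap.finrank_le_finrank_of_surjective hs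
  simp only [finrank_prod, Module.finrank_linearMap, finrank_self, mul_one,
    finrank_pi_fintype, Finset.sum_const, Finset.card_univ, Fintype.card_fin, smul_eq_mul] at this
  nlinarith

theorem exists_groups (p : ℕ) [Fact p.Prime] (K : ℕ) :
    ∃ (G H : Type) (_ : Group G) (_ : Group H) (_ : Fintype G) (_ : Fintype H),
      Fintype.card G = p ^ (320 * K + 334) ∧ Fintype.card H = p ^ (320 * K + 334) ∧
      commutator G ≤ Subgroup.center G ∧ commutator H ≤ Subgroup.center H ∧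
      (p ≠ 2 → (∀ x : G, x ^ p = 1) ∧ ∀ y : H, y ^ p = 1) ∧ IsEmpty (G ≃* H) ∧
      ∃ Good, GStrategy G H K Good := by
  obtain ⟨μ, hμ⟩ := exists_expands (F := ZMod p) 8 (32 * K + 33) (128 * K + 130) (8 * (K + 1))
    (by omega) (by omega)
  obtain ⟨c, hc⟩ := exists_nonsplit (by omega) (by omega) μ
  have : Finite (Dual (ZMod p) (Fin (32 * K + 33) → ZMod p)) := Module.finite_of_finite (ZMod p)
  have : Finite (Dual (ZMod p) (Fin (128 * K + 130) → ZMod p)) := Module.finite_of_finite (ZMod p)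
  have hcard : ∀ c, Nat.card (Heis (BL μ c)) = p ^ (320 * K + 334) := fun c => by
    rw [Nat.card_congr (Heis.equiv _), natCard_eq_pow_finrank (K := ZMod p), Nat.card_zmod]
    simp only [finrank_prod, Subspace.dual_finrank_eq, finrank_fin_fun]
    congr 1
    omega
  refine ⟨Heis (BL μ 0), Heis (BL μ c), inferInstance, inferInstance, Fintype.ofFinite _,
    Fintype.ofFinite _, ?_, ?_, Heis.commutator_le, Heis.commutator_le,
    fun hp => ⟨Heis.pow_char p hp, Heis.pow_char p hp⟩, ⟨fun e => ?_⟩,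
    exists_gstrategy hμ le_rfl c⟩
  · exact (@Nat.card_eq_fintype_card _ (Fintype.ofFinite _)).symm.trans (hcard 0)
  · exact (@Nat.card_eq_fintype_card _ (Fintype.ofFinite _)).symm.trans (hcard c)
  · obtain ⟨f, hf⟩ := exists_section e
    exact hc (split_of_section f hf)

end Pool.Agent.P.MP_f1a348_lc.Gr
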